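import Pool.Agent.H61.SF.Surf

/-!
# MP_b11560_gt: non-spreading homeomorphisms along the trajectories of a flow

Let `Σ = ℍ / Γ` be a closed hyperbolic surface and `ψ` a flow on `Σ` with lift `φ` such that every
`ψ`-invariant probability measure without drift in `ℍ` is carried by the rest points and by the
trajectories that stay in one of finitely many disjoint closed discs.  For every non-spreading
homeomorphism `f` of the form `f x = ψ (τ x) x`, `τ` continuous of any sign, we prove the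
conclusion of Q1: the identity is in the closure of the set of the conjugates of `f` by
homeomorphisms isotopic to the identity.
-/

set_option autoImplicit false

open Filter Topology MeasureTheory
open scoped UpperHalfPlane MatrixGroups

namespace Pool.Agent.Results.MP_b11560_gt.AlongFlow

/-- `Γ` is the group of deck transformations of a closed oriented hyperbolic surface: it acts on
the hyperbolic plane properly discontinuously, freely (up to elements that act trivially) and
cocompactly. -/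
structure IsDeckGroup (Γ : Subgroup SL(2, ℝ)) : Prop where
  disc : ProperlyDiscontinuousSMul Γ ℍ
  free : ∀ (g : Γ) (z : ℍ), g • z = z → ∀ w : ℍ, g • w = w
  cocompact : ∃ K : Set ℍ, IsCompact K ∧ ∀ z : ℍ, ∃ g : Γ, g • z ∈ K

/-- The closed surface `ℍ / Γ`, with the quotient topology. -/
abbrev Surf (Γ : Subgroup SL(2, ℝ)) : Type := Quotient (MulAction.orbitRel Γ ℍ)

/-- The projection of the hyperbolic plane to the surface. -/
noncomputable def proj (Γ : Subgroup SL(2, ℝ)) (z : ℍ) : Surf Γ := Quotient.mk _ z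

/-- The homeomorphism `h` is isotopic to the identity. -/
def IsotopicToId {S : Type} [TopologicalSpace S] (h : S ≃ₜ S) : Prop :=
  ∃ H : unitInterval → (S ≃ₜ S), Continuous (fun p : unitInterval × S => H p.1 p.2) ∧
    (∀ x, H 0 x = x) ∧ ∀ x, H 1 x = h x

/-- The map of the surface with lift `F` is non-spreading: `diam (F^n D) / n → 0` for a compact
set `D` whose translates cover the plane (for instance a compact fundamental domain). -/
def NonSpreading (Γ : Subgroup SL(2, ℝ)) (F : ℍ → ℍ) : Prop :=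
  ∃ D : Set ℍ, IsCompact D ∧ (∀ z : ℍ, ∃ g : Γ, g • z ∈ D) ∧
    Tendsto (fun n : ℕ => Metric.diam (F^[n] '' D) / (n : ℝ)) atTop (𝓝 0)

/-- `φ` is a continuous flow on the space `S`. -/
structure IsFlow {S : Type} [TopologicalSpace S] (φ : ℝ → S → S) : Prop where
  cont : Continuous (fun p : ℝ × S => φ p.1 p.2)
  zero : ∀ x, φ 0 x = x
  add : ∀ s t x, φ (s + t) x = φ s (φ t x)

/-- The rest points of a flow. -/
def RestPoints {S : Type} (φ : ℝ → S → S) : Set S := {x | ∀ t, φ t x = x}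

/-- Finitely many disjoint closed discs with collars: `e i` embeds the closed disc of radius two,
the images are disjoint, and the images of the open discs of radius two are open. The discs are
the images of the closed unit disc. -/
structure IsDiscFamily {S : Type} [TopologicalSpace S] {n : ℕ} (e : Fin n → ℂ → S) : Prop where
  cont : ∀ i, ContinuousOn (e i) (Metric.closedBall 0 2)
  inj : ∀ i j, ∀ z ∈ Metric.closedBall (0 : ℂ) 2, ∀ w ∈ Metric.closedBall (0 : ℂ) 2,
    e i z = e j w → i = j ∧ z = w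
  isOpen : ∀ i, IsOpen (e i '' Metric.ball 0 2)

/-- The points whose whole trajectory stays in one of the discs of the family. The discs need not
be invariant. -/
def Trapped {S : Type} {n : ℕ} (ψ : ℝ → S → S) (e : Fin n → ℂ → S) : Set S :=
  {x | ∃ i, ∀ t, ψ t x ∈ e i '' Metric.closedBall 0 1}

/-- The displacement `d (φ_T z, z)` at the time `T` of a point `z` of the plane above the point
`x` of the surface; for a flow `φ` that commutes with `Γ` it does not depend on `z`. -/
noncomputable def disp (Γ : Subgroup SL(2, ℝ)) (φ : ℝ → ℍ → ℍ) (T : ℝ) (x : Surf Γ) : ℝ :=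
  dist (φ T x.out) x.out

/-- **Q1 for the non-spreading homeomorphisms along the trajectories of a flow whose invariant
probability measures without drift are carried by the rest points and the trajectories that stay
in one of finitely many discs.** -/
theorem result (Γ : Subgroup SL(2, ℝ)) (hΓ : IsDeckGroup Γ) [MeasurableSpace (Surf Γ)]
    [BorelSpace (Surf Γ)] (φ : ℝ → ℍ → ℍ) (hφ : IsFlow φ)
    (hφΓ : ∀ (g : Γ) (t : ℝ) (z : ℍ), φ t (g • z) = g • φ t z) (hrest : (RestPoints φ).Nonempty)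
    (ψ : ℝ → Surf Γ → Surf Γ) (hψ : ∀ t z, ψ t (proj Γ z) = proj Γ (φ t z))
    (n : ℕ) (e : Fin n → ℂ → Surf Γ) (he : IsDiscFamily e)
    (hμ : ∀ μ : Measure (Surf Γ), IsProbabilityMeasure μ → (∀ t, μ.map (ψ t) = μ) →
      Tendsto (fun T : ℝ => (∫ x, disp Γ φ T x ∂μ) / T) atTop (𝓝 0) →
      μ (RestPoints ψ ∪ Trapped ψ e)ᶜ = 0)
    (f : Surf Γ ≃ₜ Surf Γ) (τ : Surf Γ → ℝ) (hτ : Continuous τ) (F : ℍ → ℍ)
    (hF : ∀ z, F z = φ (τ (proj Γ z)) z) (hfF : ∀ z, f (proj Γ z) = proj Γ (F z))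
    (hns : NonSpreading Γ F) :
    ContinuousMap.id (Surf Γ) ∈ closure {k : C(Surf Γ, Surf Γ) |
      ∃ h : Surf Γ ≃ₜ Surf Γ, IsotopicToId h ∧ ∀ x, k x = h (f (h.symm x))} := by
  have hdisc := hΓ.disc
  have hiso : ∀ (g : Γ) (x y : ℍ), dist (g • x) (g • y) = dist x y := fun g x y =>
    dist_smul (g : SL(2, ℝ)) x y
  obtain ⟨K, hK, hKcov⟩ := hΓ.cocompact
  have hcomp : CompactSpace (Surf Γ) := H61.SF.quot_compact hK hKcov
  have hT2 : T2Space (Surf Γ) := t2Space_of_properlyDiscontinuousSMul_of_t2Space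
  have hsc : SecondCountableTopology (Surf Γ) :=
    ContinuousConstSMul.secondCountableTopology (Γ := Γ) (T := ℍ)
  have hmet : TopologicalSpace.MetrizableSpace (Surf Γ) := inferInstance
  let _ : MetricSpace (Surf Γ) := TopologicalSpace.metrizableSpaceMetric (Surf Γ)
  have hΦ : H61.SF.IsFlow φ := ⟨hφ.cont, hφ.zero, hφ.add⟩
  have hpc : Continuous (proj Γ) := continuous_quotient_mk'
  have hps : Function.Surjective (proj Γ) := Quotient.mk_surjective
  have hpg : ∀ (g : Γ) (z : ℍ), proj Γ (g • z) = proj Γ z := fun g z =>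
    Quotient.sound ⟨g, rfl⟩
  -- the flow on the surface
  have hfl : H61.SF.IsFlow ψ := by
    refine ⟨H61.SF.quot_prod ?_, fun x => ?_, fun s t x => ?_⟩
    · have h1 : (fun p : ℝ × ℍ => ψ p.1 (proj Γ p.2)) = fun p : ℝ × ℍ => proj Γ (φ p.1 p.2) := by
        funext p
        exact hψ _ _
      exact h1 ▸ hpc.comp hφ.cont
    · obtain ⟨z, rfl⟩ := hps x
      rw [hψ, hφ.zero]
    · obtain ⟨z, rfl⟩ := hps x
      rw [hψ, hψ, hψ, hφ.add]
  -- the displacement
  have hDp : ∀ (t : ℝ) (z : ℍ), disp Γ φ t (proj Γ z) = dist (φ t z) z := by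
    intro t z
    have h1 : proj Γ (proj Γ z).out = proj Γ z := Quotient.out_eq _
    obtain ⟨g, hg⟩ := Quotient.exact h1
    unfold disp
    change g • z = (proj Γ z).out at hg
    rw [← hg, hφΓ, hiso]
  have hDc : Continuous (fun q : ℝ × Surf Γ => disp Γ φ q.1 q.2) := by
    refine H61.SF.quot_prod ?_
    have h1 : (fun p : ℝ × ℍ => disp Γ φ p.1 (proj Γ p.2)) =
        fun p : ℝ × ℍ => dist (φ p.1 p.2) p.2 := by
      funext p
      exact hDp _ _
    exact h1 ▸ hφ.cont.dist continuous_snd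
  -- the bound of the displacement of the iterates
  obtain ⟨z₀, hz₀⟩ := hrest
  obtain ⟨D, hD, hcov, hlim⟩ := hns
  have hFc : Continuous F := by
    have h1 : F = fun z => φ (τ (proj Γ z)) z := funext hF
    rw [h1]
    exact hφ.cont.comp ((hτ.comp hpc).prodMk continuous_id)
  have hFG : ∀ (g : Γ) (z : ℍ), F (g • z) = g • F z := by
    intro g z
    rw [hF, hF, hpg, hφΓ]
  have hFz₀ : F z₀ = z₀ := by rw [hF, hz₀]
  have hω : ∀ δ > 0, ∃ C : ℝ, ∀ (k : ℕ) (z : ℍ),
      dist (φ (H61.SF.tk f τ k (proj Γ z)) z) z ≤ δ * k + C := by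
    intro δ hδ
    obtain ⟨C, hC⟩ := H61.SF.disp_of_ns hiso hFc hFG hFz₀ hD hcov hlim hδ
    refine ⟨C, fun k z => ?_⟩
    rw [← (H61.SF.lift_iter hΦ hF hfF k z).1]
    exact hC k z
  obtain ⟨M, hM⟩ := isCompact_univ.exists_bound_of_continuousOn (f := τ) hτ.continuousOn
  have hM' : ∀ x, |τ x| ≤ M := fun x => by
    have h1 := hM x (Set.mem_univ x)
    rwa [Real.norm_eq_abs] at h1
  have hfψ : ∀ x, f x = ψ (τ x) x := by
    intro x
    obtain ⟨z, rfl⟩ := hps x
    rw [hfF, hF, hψ]
  set E : Set (Surf Γ) := RestPoints ψ ∪ Trapped ψ e with hE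
  have hEne : E.Nonempty := by
    refine ⟨proj Γ z₀, Or.inl fun t => ?_⟩
    rw [hψ, hz₀]
  have hDR : ∀ χ : Surf Γ → ℝ, Continuous χ → (∀ x, 0 ≤ χ x) → (∀ x ∈ E, χ x = 0) → ∀ η > 0,
      ∃ n : ℕ, 0 < n ∧ ∀ x, |H61.SF.coc ψ χ (H61.SF.tk f τ n x) x| ≤ η * n :=
    fun χ hχ hχ0 hχE η hη =>
      H61.SF.drift_rate hfl hΦ hps hψ hDc hDp hμ hfψ hM' hω χ hχ hχ0 hχE η hη
  have hed : H61.SF.IsDiscFamily e := ⟨he.cont, he.inj, he.isOpen⟩
  have hmain : ∀ ε : ℝ, 0 < ε → ∃ h : Surf Γ ≃ₜ Surf Γ, IsotopicToId h ∧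
      ∀ x, dist (h (f (h.symm x))) x ≤ ε := by
    intro ε hε
    -- discs of the family are small near their centres
    obtain ⟨l, hl, hl1, hl2⟩ : ∃ l : ℝ, 0 < l ∧ l ≤ 1 ∧ ∀ i, ∀ z ∈ Metric.closedBall (0 : ℂ) l,
        dist (e i z) (e i 0) ≤ ε / 4 := by
      have h1 : ∀ i, ∀ᶠ l : ℝ in 𝓝[>] 0, ∀ z ∈ Metric.closedBall (0 : ℂ) l,
          dist (e i z) (e i 0) ≤ ε / 4 := by
        intro i
        have hc : ContinuousAt (e i) 0 := (he.cont i).continuousAt
          (Metric.closedBall_mem_nhds 0 two_pos)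
        obtain ⟨δ, hδ, hδ2⟩ := Metric.continuousAt_iff.1 hc (ε / 4) (by linarith)
        filter_upwards [Ioo_mem_nhdsGT hδ] with l hl z hz
        exact (hδ2 ((Metric.mem_closedBall.1 hz).trans_lt hl.2)).le
      have h2 : ∀ᶠ l : ℝ in 𝓝[>] 0, ∀ i, ∀ z ∈ Metric.closedBall (0 : ℂ) l,
          dist (e i z) (e i 0) ≤ ε / 4 := Filter.eventually_all.2 h1
      have h3 : ∀ᶠ l : ℝ in 𝓝[>] 0, l ≤ 1 := by
        filter_upwards [Ioo_mem_nhdsGT one_pos] with l hl
        exact hl.2.le
      obtain ⟨l, ⟨hl2, hl1⟩, hl⟩ := ((h2.and h3).and self_mem_nhdsWithin).exists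
      exact ⟨l, hl, hl1, hl2⟩
    obtain ⟨g, hg, hg2⟩ := H61.SF.exists_shrink hed hl hl1
    -- the conjugate flow
    let ψ' : ℝ → Surf Γ → Surf Γ := fun t x => g (ψ t (g.symm x))
    have hfl' : H61.SF.IsFlow ψ' := by
      refine ⟨?_, fun x => ?_, fun s t x => ?_⟩
      · exact g.continuous.comp (hfl.cont.comp
          (continuous_fst.prodMk (g.symm.continuous.comp continuous_snd)))
      · change g (ψ 0 (g.symm x)) = x
        rw [hfl.zero, g.apply_symm_apply]
      · change g (ψ (s + t) (g.symm x)) = g (ψ s (g.symm (g (ψ t (g.symm x)))))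
        rw [g.symm_apply_apply, hfl.add]
    have hsmall : ∀ a ∈ g '' E, ∀ t, dist (ψ' t a) a ≤ ε / 2 := by
      rintro a ⟨x, hx, rfl⟩ t
      change dist (g (ψ t (g.symm (g x)))) (g x) ≤ ε / 2
      rw [g.symm_apply_apply]
      rcases hx with hx | hx
      · rw [hx t, dist_self]
        linarith
      · obtain ⟨i, hi⟩ := hx
        have hi' := hi t
        have hi0 := hi 0
        rw [hfl.zero] at hi0
        obtain ⟨z, hz, rfl⟩ := hi0
        obtain ⟨w, hw, hw2⟩ := hi'
        obtain ⟨z', hz', hz2⟩ := hg2 i z hz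
        obtain ⟨w', hw', hw2'⟩ := hg2 i w hw
        rw [← hw2, hw2', hz2]
        have d1 := hl2 i w' hw'
        have d2 := hl2 i z' hz'
        have := dist_triangle_right (e i w') (e i z') (e i 0)
        linarith
    let f' : Surf Γ ≃ₜ Surf Γ := g.symm.trans (f.trans g)
    have hDR' : ∀ χ : Surf Γ → ℝ, Continuous χ → (∀ x, 0 ≤ χ x) → (∀ x ∈ g '' E, χ x = 0) →
        ∀ η > 0, ∃ n : ℕ, 0 < n ∧
          ∀ x, |H61.SF.coc ψ' χ (H61.SF.tk f' (fun y => τ (g.symm y)) n x) x| ≤ η * n := by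
      intro χ hχ hχ0 hχE η hη
      obtain ⟨n, hn, hn2⟩ := hDR (fun x => χ (g x)) (hχ.comp g.continuous) (fun x => hχ0 _)
        (fun x hx => hχE _ ⟨x, hx, rfl⟩) η hη
      refine ⟨n, hn, fun x => ?_⟩
      have h1 := (H61.SF.tk_conj g f τ n x).1
      have h2 : H61.SF.tk f' (fun y => τ (g.symm y)) n x = H61.SF.tk f τ n (g.symm x) := h1
      rw [h2]
      exact hn2 (g.symm x)
    obtain ⟨k, hk, hk2⟩ := H61.SF.avg_close hfl' (hEne.image g) (f := f')
      (τ := fun y => τ (g.symm y)) (hτ.comp g.symm.continuous) (fun y => by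
        change g (f (g.symm y)) = g (ψ (τ (g.symm y)) (g.symm y))
        rw [hfψ]) (fun y => hM' _) hDR' hsmall (show 0 < ε / 2 by linarith)
    refine ⟨g.trans k, H61.SF.isoId_trans hg hk, fun x => ?_⟩
    have := hk2 x
    rw [add_halves] at this
    exact this
  choose h hh hh2 using fun n : ℕ => hmain (1 / ((n : ℝ) + 1)) (by positivity)
  let k : ℕ → C(Surf Γ, Surf Γ) := fun n =>
    ⟨fun x => h n (f ((h n).symm x)),
      (h n).continuous.comp (f.continuous.comp (h n).symm.continuous)⟩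
  have htend : Tendsto k atTop (𝓝 (ContinuousMap.id (Surf Γ))) := by
    rw [ContinuousMap.tendsto_iff_tendstoUniformly, Metric.tendstoUniformly_iff]
    intro ε hε
    have h1 := (tendsto_one_div_add_atTop_nhds_zero_nat (𝕜 := ℝ)).eventually_lt_const hε
    filter_upwards [h1] with n hn x
    rw [dist_comm]
    exact (hh2 n x).trans_lt hn
  exact mem_closure_of_tendsto htend (Eventually.of_forall fun n => ⟨h n, hh n, fun x => rfl⟩)

end Pool.Agent.Results.MP_b11560_gt.AlongFlow
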