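import Pool.Agent.H61.NS.Avg
import Pool.Agent.H61.NS.Hyp
import Pool.Agent.H61.NS.Quo

/-!
# MP_b11560_gt: non-spreading homeomorphisms that preserve the trajectories of a flow with a
Lyapunov one-form

Let `Σ = ℍ / Γ` be a closed hyperbolic surface.  We prove the conclusion of Q1 for all the
non-spreading `f` in `Homeo_0(Σ)` whose canonical lift maps to itself every trajectory of (the lift
of) a flow on `Σ` with finitely many rest points for which some closed one-form is positive along
the trajectories (all the time changes of the horizontal flows of Abelian differentials, also with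
additional stops, and all the gradient-like flows).  The spread of such an `f` may be unbounded.
-/

set_option autoImplicit false

open Filter Topology
open scoped UpperHalfPlane MatrixGroups

namespace Pool.Agent.Results.MP_b11560_gt.OrbitPreserving

/-- `Γ` is the group of deck transformations of a closed oriented hyperbolic surface: it acts on
the hyperbolic plane properly discontinuously, freely (up to elements that act trivially) and
cocompactly. -/
structure IsDeckGroup (Γ : Subgroup SL(2, ℝ)) : Prop where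
  disc : ProperlyDiscontinuousSMul Γ ℍ
  free : ∀ (g : Γ) (z : ℍ), g • z = z → ∀ w : ℍ, g • w = w
  cocompact : ∃ K : Set ℍ, IsCompact K ∧ ∀ z : ℍ, ∃ g : Γ, g • z ∈ K

/-- The closed surface `ℍ / Γ`, with the quotient topology. -/
abbrev Surf (Γ : Subgroup SL(2, ℝ)) : Type := Quotient (MulAction.orbitRel Γ ℍ)

/-- The projection of the hyperbolic plane to the surface. -/
noncomputable def proj (Γ : Subgroup SL(2, ℝ)) (z : ℍ) : Surf Γ := Quotient.mk _ z

/-- The homeomorphism `h` is isotopic to the identity. -/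
def IsotopicToId {S : Type} [TopologicalSpace S] (h : S ≃ₜ S) : Prop :=
  ∃ H : unitInterval → (S ≃ₜ S), Continuous (fun p : unitInterval × S => H p.1 p.2) ∧
    (∀ x, H 0 x = x) ∧ ∀ x, H 1 x = h x

/-- `F` is a lift of `f` that commutes with the deck transformations. -/
structure IsCanonicalLift (Γ : Subgroup SL(2, ℝ)) (f : Surf Γ ≃ₜ Surf Γ) (F : ℍ ≃ₜ ℍ) : Prop where
  lift : ∀ z : ℍ, f (proj Γ z) = proj Γ (F z)
  comm : ∀ (g : Γ) (z : ℍ), F (g • z) = g • F z

/-- The map of the surface with lift `F` is non-spreading: `diam (F^n D) / n → 0` for a compact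
set `D` whose translates cover the plane (for instance a compact fundamental domain). -/
def NonSpreading (Γ : Subgroup SL(2, ℝ)) (F : ℍ ≃ₜ ℍ) : Prop :=
  ∃ D : Set ℍ, IsCompact D ∧ (∀ z : ℍ, ∃ g : Γ, g • z ∈ D) ∧
    Tendsto (fun n : ℕ => Metric.diam ((F : ℍ → ℍ)^[n] '' D) / (n : ℝ)) atTop (𝓝 0)

/-- The rest points of a flow. -/
def RestPoints (φ : ℝ → ℍ → ℍ) : Set ℍ := {z | ∀ t, φ t z = z}

/-- `φ` is a flow on the plane that commutes with `Γ` (a flow on the surface), with at least one
rest point and finitely many on the surface, and `u` is the primitive of a closed one-form on the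
surface that is positive along the trajectories: `u` changes by constants under `Γ` and is
strictly increasing along all the trajectories other than the rest points. -/
structure IsLyapunovFlow (Γ : Subgroup SL(2, ℝ)) (φ : ℝ → ℍ → ℍ) (u : ℍ → ℝ) : Prop where
  cont : Continuous (fun p : ℝ × ℍ => φ p.1 p.2)
  zero : ∀ z, φ 0 z = z
  add : ∀ s t z, φ (s + t) z = φ s (φ t z)
  comm : ∀ (g : Γ) (t : ℝ) (z : ℍ), φ t (g • z) = g • φ t z
  nonempty : (RestPoints φ).Nonempty
  finite : ∀ K : Set ℍ, IsCompact K → (K ∩ RestPoints φ).Finite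
  ucont : Continuous u
  period : ∀ g : Γ, ∃ c : ℝ, ∀ z, u (g • z) = u z + c
  strictMono : ∀ z, z ∉ RestPoints φ → StrictMono (fun t => u (φ t z))

/-- **Q1 for the non-spreading homeomorphisms that preserve all the trajectories of a flow with a
Lyapunov one-form**: the identity is in the closure of the set of the conjugates `h f h⁻¹`, where
`h` is isotopic to the identity. -/
theorem result (Γ : Subgroup SL(2, ℝ)) (hΓ : IsDeckGroup Γ) (φ : ℝ → ℍ → ℍ) (u : ℍ → ℝ)
    (hφ : IsLyapunovFlow Γ φ u) (f : Surf Γ ≃ₜ Surf Γ) (F : ℍ ≃ₜ ℍ)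
    (hF : IsCanonicalLift Γ f F) (hns : NonSpreading Γ F) (horb : ∀ z, ∃ t, F z = φ t z) :
    ContinuousMap.id (Surf Γ) ∈ closure {k : C(Surf Γ, Surf Γ) |
      ∃ h : Surf Γ ≃ₜ Surf Γ, IsotopicToId h ∧ ∀ x, k x = h (f (h.symm x))} := by
  have hdisc := hΓ.disc
  have hiso : ∀ (g : Γ) (x y : ℍ), dist (g • x) (g • y) = dist x y := fun g x y =>
    dist_smul (g : SL(2, ℝ)) x y
  obtain ⟨D, hD, hcov, hlim⟩ := hns
  have hd : H61.NS.Dat Γ φ u :=
    { cont := hφ.cont
      zero := hφ.zero
      add := hφ.add
      smul := hφ.comm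
      ucont := hφ.ucont
      uequi := hφ.period
      mono := hφ.strictMono
      fin := hφ.finite
      ne := hφ.nonempty }
  have hL := hd.lemL hiso hD hcov
  have hmon := hd.mon hL hD hcov F.continuous F.injective hF.comm horb
  obtain ⟨C, hC⟩ := hd.unif hiso hD hcov
  have hC0 : 0 ≤ C := (abs_nonneg _).trans (hC UpperHalfPlane.I UpperHalfPlane.I (by simp))
  have hco : ∀ x y : ℍ, |u x - u y| ≤ 3 * C + 2 * C * dist x y := by
    intro x y
    have := H61.NS.coarse hC x y
    linarith
  have hdrift := hd.drift (by positivity) hco F.continuous hF.comm horb hD hcov hlim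
  have hex : ∀ n : ℕ, ∃ H : unitInterval → (ℍ ≃ₜ ℍ),
      Continuous (fun p : unitInterval × ℍ => H p.1 p.2) ∧
      (∀ s (g : Γ) x, H s (g • x) = g • H s x) ∧ (∀ x, H 0 x = x) ∧
      ∀ x, dist (H 1 (F x)) (H 1 x) ≤ 1 / ((n : ℝ) + 1) := fun n =>
    hd.close hL hF.comm horb hmon hdrift (by positivity)
  choose H hHc hHG hH0 hHe using hex
  let h : ℕ → (Surf Γ ≃ₜ Surf Γ) := fun n => H61.NS.desc (H n 1) (hHG n 1)
  let k : ℕ → C(Surf Γ, Surf Γ) := fun n =>
    ⟨fun x => h n (f ((h n).symm x)),
      (h n).continuous.comp (f.continuous.comp (h n).symm.continuous)⟩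
  have hk : ∀ n x, k n (Quotient.mk _ x) =
      Quotient.mk (MulAction.orbitRel Γ ℍ) (H n 1 (F ((H n 1).symm x))) := by
    intro n x
    have e1 : (h n).symm (Quotient.mk _ x) = proj Γ ((H n 1).symm x) := rfl
    change h n (f ((h n).symm (Quotient.mk _ x))) = _
    rw [e1, hF.lift]
    rfl
  have htend : Tendsto k atTop (𝓝 (ContinuousMap.id (Surf Γ))) := by
    refine H61.NS.tendsto_quot hD hcov k (fun n x => H n 1 (F ((H n 1).symm x))) hk
      (fun n => 1 / ((n : ℝ) + 1)) tendsto_one_div_add_atTop_nhds_zero_nat fun n x => ?_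
    have := hHe n ((H n 1).symm x)
    rwa [Homeomorph.apply_symm_apply] at this
  refine mem_closure_of_tendsto htend (Filter.Eventually.of_forall fun n => ?_)
  refine ⟨h n, ⟨fun s => H61.NS.desc (H n s) (hHG n s), ?_, ?_, fun x => rfl⟩, fun x => rfl⟩
  · exact H61.NS.desc_cont (H n) (hHc n) (hHG n)
  · intro x
    induction x using Quotient.inductionOn with
    | _ x =>
      rw [H61.NS.desc_mk, hH0]

end Pool.Agent.Results.MP_b11560_gt.OrbitPreserving
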