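import Pool.Agent.H61.SF.KB
import Pool.Agent.H61.SF.Shrink

/-!
# MP_b11560_gt: homeomorphisms along the trajectories of a flow whose invariant measures are
carried by rest points and invariant discs

Let `φ` be a flow on a closed surface (or on any compact metrizable space) all of whose invariant
probability measures are carried by the union of the set of the rest points and of finitely many
invariant closed discs.  For every homeomorphism `f` of the form `f x = φ (τ x) x`, `τ` continuous
(for instance the time-`t` maps of the flow), we prove the conclusion of Q1: the identity is in the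
closure of the set of the conjugates of `f` by homeomorphisms isotopic to the identity.
-/

set_option autoImplicit false

open Filter Topology MeasureTheory

namespace Pool.Agent.Results.MP_b11560_gt.SlowFlow

/-- `φ` is a continuous flow on the space `S`. -/
structure IsFlow {S : Type} [TopologicalSpace S] (φ : ℝ → S → S) : Prop where
  cont : Continuous (fun p : ℝ × S => φ p.1 p.2)
  zero : ∀ x, φ 0 x = x
  add : ∀ s t x, φ (s + t) x = φ s (φ t x)

/-- The rest points of a flow. -/
def RestPoints {S : Type} (φ : ℝ → S → S) : Set S := {x | ∀ t, φ t x = x}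

/-- The homeomorphism `h` is isotopic to the identity. -/
def IsotopicToId {S : Type} [TopologicalSpace S] (h : S ≃ₜ S) : Prop :=
  ∃ H : unitInterval → (S ≃ₜ S), Continuous (fun p : unitInterval × S => H p.1 p.2) ∧
    (∀ x, H 0 x = x) ∧ ∀ x, H 1 x = h x

/-- Finitely many disjoint closed discs with collars: `e i` embeds the closed disc of radius two,
the images are disjoint, and the images of the open discs of radius two are open. The discs are
the images of the closed unit disc. -/
structure IsDiscFamily {S : Type} [TopologicalSpace S] {n : ℕ} (e : Fin n → ℂ → S) : Prop where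
  cont : ∀ i, ContinuousOn (e i) (Metric.closedBall 0 2)
  inj : ∀ i j, ∀ z ∈ Metric.closedBall (0 : ℂ) 2, ∀ w ∈ Metric.closedBall (0 : ℂ) 2,
    e i z = e j w → i = j ∧ z = w
  isOpen : ∀ i, IsOpen (e i '' Metric.ball 0 2)

/-- The union of the discs of the family. -/
def Discs {S : Type} {n : ℕ} (e : Fin n → ℂ → S) : Set S :=
  ⋃ i, e i '' Metric.closedBall 0 1

/-- **Q1 for the homeomorphisms along the trajectories of a flow whose invariant probability
measures are carried by the rest points and finitely many invariant discs.** -/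
theorem result (S : Type) [TopologicalSpace S] [CompactSpace S] [TopologicalSpace.MetrizableSpace S]
    [Nonempty S] [MeasurableSpace S] [BorelSpace S] (φ : ℝ → S → S) (hφ : IsFlow φ)
    (n : ℕ) (e : Fin n → ℂ → S) (he : IsDiscFamily e)
    (hinv : ∀ (i : Fin n) (t : ℝ), ∀ x ∈ e i '' Metric.closedBall 0 1,
      φ t x ∈ e i '' Metric.closedBall 0 1)
    (hμ : ∀ μ : Measure S, IsProbabilityMeasure μ → (∀ t, μ.map (φ t) = μ) →
      μ (RestPoints φ ∪ Discs e)ᶜ = 0)
    (f : S ≃ₜ S) (τ : S → ℝ) (hτ : Continuous τ) (hf : ∀ x, f x = φ (τ x) x) :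
    ContinuousMap.id S ∈ closure {k : C(S, S) |
      ∃ h : S ≃ₜ S, IsotopicToId h ∧ ∀ x, k x = h (f (h.symm x))} := by
  let _ : MetricSpace S := TopologicalSpace.metrizableSpaceMetric S
  have hfl : H61.SF.IsFlow φ := ⟨hφ.cont, hφ.zero, hφ.add⟩
  have hed : H61.SF.IsDiscFamily e := ⟨he.cont, he.inj, he.isOpen⟩
  set E : Set S := RestPoints φ ∪ Discs e with hE
  have havg : ∀ χ : S → ℝ, Continuous χ → (∀ x ∈ E, χ x = 0) → ∀ η > 0, ∃ T : ℝ, 0 < T ∧
      ∀ x, ∫ s in (0 : ℝ)..T, χ (φ s x) ≤ η * T := fun χ hχ hχE η hη =>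
    H61.SF.uniform_avg hfl hμ hχ hχE hη
  have hEne : E.Nonempty := by
    by_contra hcon
    rw [Set.not_nonempty_iff_eq_empty] at hcon
    obtain ⟨T, hT, hT2⟩ := havg (fun _ => 1) continuous_const
      (fun x hx => by rw [hcon] at hx; exact absurd hx (Set.notMem_empty x)) (1 / 2) (by norm_num)
    have := hT2 (Classical.arbitrary S)
    rw [intervalIntegral.integral_const, sub_zero, smul_eq_mul, mul_one] at this
    linarith
  obtain ⟨M, hM⟩ := isCompact_univ.exists_bound_of_continuousOn (f := τ) hτ.continuousOn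
  have hM' : ∀ x, |τ x| ≤ |M| + 1 := fun x => by
    have h1 := hM x (Set.mem_univ x)
    have h2 := le_abs_self M
    rw [Real.norm_eq_abs] at h1
    linarith
  have hmain : ∀ ε : ℝ, 0 < ε → ∃ h : S ≃ₜ S, IsotopicToId h ∧
      ∀ x, dist (h (f (h.symm x))) x ≤ ε := by
    intro ε hε
    -- discs of the family are small near their centres
    obtain ⟨l, hl, hl1, hl2⟩ : ∃ l : ℝ, 0 < l ∧ l ≤ 1 ∧ ∀ i, ∀ z ∈ Metric.closedBall (0 : ℂ) l,
        dist (e i z) (e i 0) ≤ ε / 4 := by
      have h1 : ∀ i, ∀ᶠ l : ℝ in 𝓝[>] 0, ∀ z ∈ Metric.closedBall (0 : ℂ) l,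
          dist (e i z) (e i 0) ≤ ε / 4 := by
        intro i
        have hc : ContinuousAt (e i) 0 := (he.cont i).continuousAt
          (Metric.closedBall_mem_nhds 0 two_pos)
        obtain ⟨δ, hδ, hδ2⟩ := Metric.continuousAt_iff.1 hc (ε / 4) (by linarith)
        filter_upwards [Ioo_mem_nhdsGT hδ] with l hl z hz
        exact (hδ2 ((Metric.mem_closedBall.1 hz).trans_lt hl.2)).le
      have h2 : ∀ᶠ l : ℝ in 𝓝[>] 0, ∀ i, ∀ z ∈ Metric.closedBall (0 : ℂ) l,
          dist (e i z) (e i 0) ≤ ε / 4 := Filter.eventually_all.2 h1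
      have h3 : ∀ᶠ l : ℝ in 𝓝[>] 0, l ≤ 1 := by
        filter_upwards [Ioo_mem_nhdsGT one_pos] with l hl
        exact hl.2.le
      obtain ⟨l, ⟨hl2, hl1⟩, hl⟩ := ((h2.and h3).and self_mem_nhdsWithin).exists
      exact ⟨l, hl, hl1, hl2⟩
    obtain ⟨g, hg, hg2⟩ := H61.SF.exists_shrink hed hl hl1
    -- the conjugate flow
    let φ' : ℝ → S → S := fun t x => g (φ t (g.symm x))
    have hfl' : H61.SF.IsFlow φ' := by
      refine ⟨?_, fun x => ?_, fun s t x => ?_⟩
      · exact g.continuous.comp (hφ.cont.comp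
          (continuous_fst.prodMk (g.symm.continuous.comp continuous_snd)))
      · change g (φ 0 (g.symm x)) = x
        rw [hφ.zero, g.apply_symm_apply]
      · change g (φ (s + t) (g.symm x)) = g (φ s (g.symm (g (φ t (g.symm x)))))
        rw [g.symm_apply_apply, hφ.add]
    have havg' : ∀ χ : S → ℝ, Continuous χ → (∀ x ∈ g '' E, χ x = 0) → ∀ η > 0, ∃ T : ℝ, 0 < T ∧
        ∀ x, ∫ s in (0 : ℝ)..T, χ (φ' s x) ≤ η * T := by
      intro χ hχ hχE η hη
      obtain ⟨T, hT, hT2⟩ := havg (fun x => χ (g x)) (hχ.comp g.continuous)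
        (fun x hx => hχE _ ⟨x, hx, rfl⟩) η hη
      exact ⟨T, hT, fun x => hT2 (g.symm x)⟩
    have hsmall : ∀ a ∈ g '' E, ∀ t, dist (φ' t a) a ≤ ε / 2 := by
      rintro a ⟨x, hx, rfl⟩ t
      change dist (g (φ t (g.symm (g x)))) (g x) ≤ ε / 2
      rw [g.symm_apply_apply]
      rcases hx with hx | hx
      · rw [hx t, dist_self]
        linarith
      · obtain ⟨i, hi⟩ := Set.mem_iUnion.1 hx
        have hi' := hinv i t x hi
        obtain ⟨z, hz, rfl⟩ := hi
        obtain ⟨w, hw, hw2⟩ := hi'
        obtain ⟨z', hz', hz2⟩ := hg2 i z hz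
        obtain ⟨w', hw', hw2'⟩ := hg2 i w hw
        rw [← hw2, hw2', hz2]
        have d1 := hl2 i w' hw'
        have d2 := hl2 i z' hz'
        have := dist_triangle_right (e i w') (e i z') (e i 0)
        linarith
    obtain ⟨k, hk, hk2⟩ := H61.SF.slow_conj hfl' (hEne.image g) havg' hsmall
      (show (0 : ℝ) < |M| + 1 by positivity) (show 0 < ε / 2 by linarith)
    refine ⟨g.trans k.symm, H61.SF.isoId_trans hg (H61.SF.isoId_symm hk), fun x => ?_⟩
    have := hk2 (fun y => g (f (g.symm y))) (fun y => τ (g.symm y)) (fun y => hM' _)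
      (fun y => by
        change g (f (g.symm y)) = g (φ (τ (g.symm y)) (g.symm y))
        rw [hf]) x
    rw [add_halves] at this
    exact this
  choose h hh hh2 using fun n : ℕ => hmain (1 / ((n : ℝ) + 1)) (by positivity)
  let k : ℕ → C(S, S) := fun n =>
    ⟨fun x => h n (f ((h n).symm x)),
      (h n).continuous.comp (f.continuous.comp (h n).symm.continuous)⟩
  have htend : Tendsto k atTop (𝓝 (ContinuousMap.id S)) := by
    rw [ContinuousMap.tendsto_iff_tendstoUniformly, Metric.tendstoUniformly_iff]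
    intro ε hε
    have h1 := (tendsto_one_div_add_atTop_nhds_zero_nat (𝕜 := ℝ)).eventually_lt_const hε
    filter_upwards [h1] with n hn x
    rw [dist_comm]
    exact (hh2 n x).trans_lt hn
  exact mem_closure_of_tendsto htend (Eventually.of_forall fun n => ⟨h n, hh n, fun x => rfl⟩)

end Pool.Agent.Results.MP_b11560_gt.SlowFlow
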