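import Pool.Agent.H59.CFL.Final

/-!
# MP_b11560_gt: non-spreading homeomorphisms along the trajectories of a `C¹` flow

Let `Σ = ℍ / Γ` be a closed hyperbolic surface and `ψ` a flow on `Σ` with a lift `φ` of class `C¹`
that has a rest point.  Suppose that every closed trajectory of `φ` in the plane projects into one
of finitely many disjoint closed discs (no disc is needed if the only closed trajectories of `φ`
are the rest points).  For every non-spreading homeomorphism `f` of the form `f x = ψ (τ x) x`, `τ`
continuous of any sign, we prove the conclusion of Q1: the identity is in the closure of the set of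
the conjugates of `f` by homeomorphisms isotopic to the identity.

There is no hypothesis on the invariant measures of `ψ`.  The new part is the proof that a
`ψ`-invariant probability measure without drift in the plane is carried by the rest points and the
closed trajectories that lift to closed trajectories: a recurrent point that is not periodic lies
on a closed transversal curve, the crossings of this curve are counted by a circle valued map,
whose lift to the plane is monotone along the trajectories of `φ` and Lipschitz at large scale.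
-/

set_option autoImplicit false

open Filter Topology
open scoped UpperHalfPlane MatrixGroups

namespace Pool.Agent.Results.MP_b11560_gt.SmoothFlows

/-- `Γ` is the group of deck transformations of a closed oriented hyperbolic surface: it acts on
the hyperbolic plane properly discontinuously, freely (up to elements that act trivially) and
cocompactly. -/
structure IsDeckGroup (Γ : Subgroup SL(2, ℝ)) : Prop where
  disc : ProperlyDiscontinuousSMul Γ ℍ
  free : ∀ (g : Γ) (z : ℍ), g • z = z → ∀ w : ℍ, g • w = w
  cocompact : ∃ K : Set ℍ, IsCompact K ∧ ∀ z : ℍ, ∃ g : Γ, g • z ∈ K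

/-- The closed surface `ℍ / Γ`, with the quotient topology. -/
abbrev Surf (Γ : Subgroup SL(2, ℝ)) : Type := Quotient (MulAction.orbitRel Γ ℍ)

/-- The projection of the hyperbolic plane to the surface. -/
noncomputable def proj (Γ : Subgroup SL(2, ℝ)) (z : ℍ) : Surf Γ := Quotient.mk _ z

/-- The homeomorphism `h` is isotopic to the identity. -/
def IsotopicToId {S : Type} [TopologicalSpace S] (h : S ≃ₜ S) : Prop :=
  ∃ H : unitInterval → (S ≃ₜ S), Continuous (fun p : unitInterval × S => H p.1 p.2) ∧
    (∀ x, H 0 x = x) ∧ ∀ x, H 1 x = h x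

/-- The map of the surface with lift `F` is non-spreading: `diam (F^n D) / n → 0` for a compact
set `D` whose translates cover the plane (for instance a compact fundamental domain). -/
def NonSpreading (Γ : Subgroup SL(2, ℝ)) (F : ℍ → ℍ) : Prop :=
  ∃ D : Set ℍ, IsCompact D ∧ (∀ z : ℍ, ∃ g : Γ, g • z ∈ D) ∧
    Tendsto (fun n : ℕ => Metric.diam (F^[n] '' D) / (n : ℝ)) atTop (𝓝 0)

/-- `φ` is a continuous flow on the space `S`. -/
structure IsFlow {S : Type} [TopologicalSpace S] (φ : ℝ → S → S) : Prop where
  cont : Continuous (fun p : ℝ × S => φ p.1 p.2)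
  zero : ∀ x, φ 0 x = x
  add : ∀ s t x, φ (s + t) x = φ s (φ t x)

/-- The flow `φ` of the hyperbolic plane is of class `C¹`: the map `(t, w) ↦ φ t w` is continuously
differentiable on `ℝ × {w : ℂ | 0 < im w}`. -/
def IsC1 (φ : ℝ → ℍ → ℍ) : Prop :=
  ContDiffOn ℝ 1 (fun p : ℝ × ℂ => (φ p.1 (UpperHalfPlane.ofComplex p.2) : ℂ)) {p | 0 < p.2.im}

/-- The rest points of a flow. -/
def RestPoints {S : Type} (φ : ℝ → S → S) : Set S := {x | ∀ t, φ t x = x}

/-- Finitely many disjoint closed discs with collars: `e i` embeds the closed disc of radius two,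
the images are disjoint, and the images of the open discs of radius two are open. The discs are
the images of the closed unit disc. -/
structure IsDiscFamily {S : Type} [TopologicalSpace S] {n : ℕ} (e : Fin n → ℂ → S) : Prop where
  cont : ∀ i, ContinuousOn (e i) (Metric.closedBall 0 2)
  inj : ∀ i j, ∀ z ∈ Metric.closedBall (0 : ℂ) 2, ∀ w ∈ Metric.closedBall (0 : ℂ) 2,
    e i z = e j w → i = j ∧ z = w
  isOpen : ∀ i, IsOpen (e i '' Metric.ball 0 2)

/-- The points whose whole trajectory stays in one of the discs of the family. The discs need not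
be invariant. -/
def Trapped {S : Type} {n : ℕ} (ψ : ℝ → S → S) (e : Fin n → ℂ → S) : Set S :=
  {x | ∃ i, ∀ t, ψ t x ∈ e i '' Metric.closedBall 0 1}

/-- **Q1 for the non-spreading homeomorphisms along the trajectories of a `C¹` flow whose closed
trajectories in the plane project into finitely many discs.** -/
theorem result (Γ : Subgroup SL(2, ℝ)) (hΓ : IsDeckGroup Γ) (φ : ℝ → ℍ → ℍ) (hφ : IsFlow φ)
    (hC1 : IsC1 φ) (hφΓ : ∀ (g : Γ) (t : ℝ) (z : ℍ), φ t (g • z) = g • φ t z)
    (hrest : (RestPoints φ).Nonempty)
    (ψ : ℝ → Surf Γ → Surf Γ) (hψ : ∀ t z, ψ t (proj Γ z) = proj Γ (φ t z))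
    (n : ℕ) (e : Fin n → ℂ → Surf Γ) (he : IsDiscFamily e)
    (hcl : ∀ (z : ℍ) (T : ℝ), 0 < T → φ T z = z → z ∈ RestPoints φ ∨ proj Γ z ∈ Trapped ψ e)
    (f : Surf Γ ≃ₜ Surf Γ) (τ : Surf Γ → ℝ) (hτ : Continuous τ) (F : ℍ → ℍ)
    (hF : ∀ z, F z = φ (τ (proj Γ z)) z) (hfF : ∀ z, f (proj Γ z) = proj Γ (F z))
    (hns : NonSpreading Γ F) :
    ContinuousMap.id (Surf Γ) ∈ closure {k : C(Surf Γ, Surf Γ) |
      ∃ h : Surf Γ ≃ₜ Surf Γ, IsotopicToId h ∧ ∀ x, k x = h (f (h.symm x))} := by
  refine H59.CFL.main Γ ⟨hΓ.disc, hΓ.free, hΓ.cocompact⟩ φ ⟨hφ.cont, hφ.zero, hφ.add⟩ hC1 hφΓ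
    hrest ψ hψ n e ⟨he.cont, he.inj, he.isOpen⟩ ?_ f τ hτ F hF hfF hns
  intro z T hT h
  rcases hcl z T hT h with h1 | h1
  · left
    intro t
    change ψ t (proj Γ z) = proj Γ z
    rw [hψ, h1 t]
  · exact Or.inr h1

end Pool.Agent.Results.MP_b11560_gt.SmoothFlows
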